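import Pool.Agent.TH393.Drc
import Pool.Agent.TH393.Constr

set_option autoImplicit false

/-!
# MP_cecf76_co: the growth of `f(n,m,c,ε)`
-/

open Finset

namespace Pool.Agent.Results.MP_cecf76_co.Growth

/-- `A_1, …, A_m` is a sequence of subsets of an `n`-set with `|A_k| > c n` for every `k`. -/
def Valid (n m : ℕ) (c : ℝ) (A : Fin m → Finset (Fin n)) : Prop :=
  ∀ k, c * n < ((A k).card : ℝ)

/-- The index set `I` is `ε`-intersecting: `|A_i ∩ A_j| > ε n` for all distinct `i, j ∈ I`. -/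
def EpsInt (n m : ℕ) (ε : ℝ) (A : Fin m → Finset (Fin n)) (I : Finset (Fin m)) : Prop :=
  ∀ i ∈ I, ∀ j ∈ I, i ≠ j → ε * n < ((A i ∩ A j).card : ℝ)

/-- `f(n,m,c,ε)`: the largest `s` such that every sequence of `m` subsets of an `n`-set with more
than `c n` elements each has an `ε`-intersecting index set of size `s`. -/
noncomputable def f (n m : ℕ) (c ε : ℝ) : ℕ :=
  sSup {s | ∀ A : Fin m → Finset (Fin n), Valid n m c A →
    ∃ I : Finset (Fin m), EpsInt n m ε A I ∧ I.card = s}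

theorem valid_univ (n m : ℕ) (hn : 1 ≤ n) (c : ℝ) (hc : c ≤ 1 / 2) :
    Valid n m c (fun _ => univ) := by
  intro k
  rw [card_univ, Fintype.card_fin]
  have : (1 : ℝ) ≤ n := by exact_mod_cast hn
  nlinarith

theorem bdd (n m : ℕ) (hn : 1 ≤ n) (c ε : ℝ) (hc : c ≤ 1 / 2) :
    ∀ s ∈ {s | ∀ A : Fin m → Finset (Fin n), Valid n m c A →
    ∃ I : Finset (Fin m), EpsInt n m ε A I ∧ I.card = s}, s ≤ m := by
  intro s hs
  obtain ⟨I, _, rfl⟩ := hs _ (valid_univ n m hn c hc)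
  simpa using card_le_univ I

/-- `f(n,m,c,ε)` has the defining property. -/
theorem f_mem (n m : ℕ) (hn : 1 ≤ n) (c ε : ℝ) (hc : c ≤ 1 / 2) :
    ∀ A : Fin m → Finset (Fin n), Valid n m c A →
    ∃ I : Finset (Fin m), EpsInt n m ε A I ∧ I.card = f n m c ε := by
  have : sSup {s | ∀ A : Fin m → Finset (Fin n), Valid n m c A →
    ∃ I : Finset (Fin m), EpsInt n m ε A I ∧ I.card = s} ∈ {s | ∀ A : Fin m → Finset (Fin n),
      Valid n m c A → ∃ I : Finset (Fin m), EpsInt n m ε A I ∧ I.card = s} := by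
    apply Nat.sSup_mem
    · refine ⟨0, fun A _ => ⟨∅, ?_, rfl⟩⟩
      intro i hi
      simp at hi
    · exact ⟨m, bdd n m hn c ε hc⟩
  exact this

theorem le_f (n m : ℕ) (hn : 1 ≤ n) (c ε : ℝ) (hc : c ≤ 1 / 2) (s : ℕ)
    (h : ∀ A : Fin m → Finset (Fin n), Valid n m c A →
    ∃ I : Finset (Fin m), EpsInt n m ε A I ∧ I.card = s) : s ≤ f n m c ε :=
  le_csSup ⟨m, bdd n m hn c ε hc⟩ h

theorem lower (c ε : ℝ) (hε : 0 < ε) (hεc : ε < c) (hc : c ≤ 1 / 2) (n m : ℕ) (hn : 1 ≤ n)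
    (hm : 1 ≤ m) :
    (c / 2) * m * (2 * ((min m (2 ^ n) : ℕ) : ℝ)) ^ (-(Real.log (1 / c) / Real.log (c / ε))) ≤
      f n m c ε := by
  classical
  set D := min m (2 ^ n) with hD
  have hD1 : 1 ≤ D := le_min hm Nat.one_le_two_pow
  have key : ⌈(c / 2) * m * (2 * (D : ℝ)) ^ (-(Real.log (1 / c) / Real.log (c / ε)))⌉₊ ≤
      f n m c ε := by
    apply le_f n m hn c ε hc
    intro A hA
    have hDc : (univ.image A).card ≤ D := by
      apply le_min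
      · simpa using card_image_le (s := (univ : Finset (Fin m))) (f := A)
      · have := card_le_univ (univ.image A)
        simpa using this
    obtain ⟨I, hI, hcard⟩ := Pool.Agent.TH393.Drc.drc_exp (by omega) A c ε hε hεc
      (by linarith) (fun i => (hA i).le) D hD1 hDc
    obtain ⟨J, hJI, hJc⟩ := exists_subset_card_eq (Nat.ceil_le.2 hcard)
    exact ⟨J, fun i hi j hj _ => hI i (hJI hi) j (hJI hj), hJc⟩
  exact (Nat.le_ceil _).trans (by exact_mod_cast key)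

theorem upper (c ε : ℝ) (hε : 0 < ε) (hεc : ε < c) (hc : c ≤ 1 / 2) (n m : ℕ) (hn : 1 ≤ n)
    (hm : 1 ≤ m) :
    (f n m c ε : ℝ) ≤ 6 * m * ((min m (2 ^ n) : ℕ) : ℝ) ^ (-(ε ^ 2 / 4)) := by
  obtain ⟨A, hA, hI⟩ := Pool.Agent.TH393.Constr.construct n m hn hm ε hε (by linarith)
  have hV : Valid n m c A := by
    intro k
    refine lt_of_le_of_lt ?_ (hA k)
    have : (0 : ℝ) ≤ n := Nat.cast_nonneg n
    nlinarith
  obtain ⟨I, hI1, hI2⟩ := f_mem n m hn c ε hc A hV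
  rw [← hI2]
  exact hI I hI1

/-- **Main theorem.** Let `D = min(m, 2^n)`. For all `0 < ε < c ≤ 1/2` and all `n, m ≥ 1`,
`(c/2) m (2D)^{-log(1/c)/log(c/ε)} ≤ f(n,m,c,ε) ≤ 6 m D^{-ε²/4}`. In particular the conjecture
`f(n,n,c,ε) ≥ η √n` holds for all `0 < c ≤ 1/2` and `ε ≤ c³`, with `η = c/4`, while
`f(n,m,c,ε) ≥ η m` for all `m < n` fails for all `0 < ε < c ≤ 1/2` and all `η > 0`. -/
theorem result :
    (∀ c ε : ℝ, 0 < ε → ε < c → c ≤ 1 / 2 → ∀ n m : ℕ, 1 ≤ n → 1 ≤ m →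
      (c / 2) * m * (2 * ((min m (2 ^ n) : ℕ) : ℝ)) ^ (-(Real.log (1 / c) / Real.log (c / ε))) ≤
        f n m c ε ∧
      (f n m c ε : ℝ) ≤ 6 * m * ((min m (2 ^ n) : ℕ) : ℝ) ^ (-(ε ^ 2 / 4))) ∧
    (∀ c ε : ℝ, 0 < c → c ≤ 1 / 2 → 0 < ε → ε ≤ c ^ 3 → ∀ n : ℕ, 1 ≤ n →
      (c / 4) * (n : ℝ) ^ (1 / 2 : ℝ) ≤ f n n c ε) ∧
    (∀ c ε η : ℝ, 0 < ε → ε < c → c ≤ 1 / 2 → 0 < η →
      ∃ n m : ℕ, 1 ≤ m ∧ m < n ∧ (f n m c ε : ℝ) < η * m) := by
  refine ⟨fun c ε hε hεc hc n m hn hm => ⟨lower c ε hε hεc hc n m hn hm,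
    upper c ε hε hεc hc n m hn hm⟩, ?_, ?_⟩
  · intro c ε hc hc2 hε hε3 n hn
    have hc3 : c ^ 3 < c := by nlinarith [sq_nonneg c, mul_pos hc hc]
    have hεc : ε < c := lt_of_le_of_lt hε3 hc3
    refine le_trans ?_ (lower c ε hε hεc hc2 n n hn hn)
    have hmin : min n (2 ^ n) = n := min_eq_left Nat.lt_two_pow_self.le
    rw [hmin]
    have hn' : (1 : ℝ) ≤ n := by exact_mod_cast hn
    have hn0 : (0 : ℝ) < n := by linarith
    have hlogc : 0 < Real.log (1 / c) := Real.log_pos (by rw [lt_div_iff₀ hc]; linarith)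
    have hlog2 : 2 * Real.log (1 / c) ≤ Real.log (c / ε) := by
      have h1 : (1 / c) ^ 2 ≤ c / ε := by
        rw [le_div_iff₀ hε, one_div, inv_pow]
        have hc2' : (c ^ 2)⁻¹ * ε ≤ (c ^ 2)⁻¹ * c ^ 3 := mul_le_mul_of_nonneg_left hε3 (by positivity)
        refine hc2'.trans (le_of_eq ?_)
        field_simp
      have h2 := Real.log_le_log (by positivity) h1
      rw [Real.log_pow] at h2
      exact_mod_cast h2
    have hδ : Real.log (1 / c) / Real.log (c / ε) ≤ 1 / 2 := by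
      rw [div_le_iff₀ (by linarith)]
      linarith
    have h3 : (2 * (n : ℝ)) ^ (-(1 / 2) : ℝ) ≤
        (2 * (n : ℝ)) ^ (-(Real.log (1 / c) / Real.log (c / ε))) :=
      Real.rpow_le_rpow_of_exponent_le (by linarith) (by linarith)
    have h4 : (1 / 2 : ℝ) * (n : ℝ) ^ (-(1 / 2) : ℝ) ≤ (2 * (n : ℝ)) ^ (-(1 / 2) : ℝ) := by
      rw [Real.mul_rpow (by norm_num) hn0.le]
      apply mul_le_mul_of_nonneg_right _ (by positivity)
      have : (1 / 2 : ℝ) = 2 ^ (-1 : ℝ) := by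
        rw [Real.rpow_neg_one]; norm_num
      rw [this]
      exact Real.rpow_le_rpow_of_exponent_le (by norm_num) (by norm_num)
    have h5 : (n : ℝ) * (n : ℝ) ^ (-(1 / 2) : ℝ) = (n : ℝ) ^ (1 / 2 : ℝ) := by
      have : (n : ℝ) * (n : ℝ) ^ (-(1 / 2) : ℝ) = (n : ℝ) ^ (1 : ℝ) * (n : ℝ) ^ (-(1 / 2) : ℝ) := by
        rw [Real.rpow_one]
      rw [this, ← Real.rpow_add hn0]
      norm_num
    calc (c / 4) * (n : ℝ) ^ (1 / 2 : ℝ) = (c / 2) * n * ((1 / 2 : ℝ) * (n : ℝ) ^ (-(1 / 2) : ℝ)) := by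
          rw [← h5]; ring
      _ ≤ (c / 2) * n * (2 * (n : ℝ)) ^ (-(Real.log (1 / c) / Real.log (c / ε))) :=
          mul_le_mul_of_nonneg_left (h4.trans h3) (by positivity)
  · intro c ε η hε hεc hc hη
    have hγ : 0 < ε ^ 2 / 4 := by positivity
    have htend : Filter.Tendsto (fun m : ℕ => 6 * (m : ℝ) ^ (-(ε ^ 2 / 4))) Filter.atTop
        (nhds (6 * 0)) :=
      ((tendsto_rpow_neg_atTop hγ).comp tendsto_natCast_atTop_atTop).const_mul 6
    rw [mul_zero] at htend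
    have hev := (htend.eventually (gt_mem_nhds hη)).and (Filter.eventually_ge_atTop 1)
    obtain ⟨m, hm1, hm2⟩ := hev.exists
    refine ⟨m + 1, m, hm2, by omega, ?_⟩
    refine lt_of_le_of_lt (upper c ε hε hεc hc (m + 1) m (by omega) hm2) ?_
    have hmin : min m (2 ^ (m + 1)) = m :=
      min_eq_left (Nat.lt_two_pow_self.le.trans (Nat.pow_le_pow_right (by norm_num) (by omega)))
    rw [hmin]
    have hm0 : (0 : ℝ) < m := by exact_mod_cast hm2
    calc 6 * (m : ℝ) * (m : ℝ) ^ (-(ε ^ 2 / 4)) = (6 * (m : ℝ) ^ (-(ε ^ 2 / 4))) * m := by ring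
      _ < η * m := mul_lt_mul_of_pos_right hm1 hm0

end Pool.Agent.Results.MP_cecf76_co.Growth
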